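import Pool.Agent.helper75.WB.SpecI

/-! # Project wb, Part I, row IF3 -/

set_option autoImplicit false

namespace Pool.Agent.WB

open Finset

/-- Cramer -/
theorem IF3_cramer83 (a b c d u v u' v' e f : ℤ) (hD : a * d - c * b ≠ 0)
    (h1 : b * u - a * v = e) (h2 : d * u - c * v = f) (h3 : b * u' - a * v' = e) (h4 : d * u' - c * v' = f) :
    u = u' ∧ v = v' := by
  have h5 : (a * d - c * b) * (u - u') = 0 := by linear_combination a * (h2 - h4) - c * (h1 - h3)
  have h6 : (a * d - c * b) * (v - v') = 0 := by linear_combination b * (h2 - h4) - d * (h1 - h3)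
  constructor
  · rcases mul_eq_zero.1 h5 with h | h
    · exact absurd h hD
    · linarith
  · rcases mul_eq_zero.1 h6 with h | h
    · exact absurd h hD
    · linarith

/-- **IF3**. -/
theorem IF3 : IF3_stmt := by
  classical
  intro q q' V x y w G t τ R hF hR u v
  obtain ⟨hV, hG, _⟩ := hF
  let E : ℕ × ℕ × ℕ → V3 × V3 := fun g =>
    (![x g.2.1, y g.2.1, y g.2.1 * u - x g.2.1 * v], ![x g.2.2, y g.2.2, y g.2.2 * u - x g.2.2 * v])
  have hsub : {e : V3 × V3 | e ∈ FF x y w G t τ ∧ onL u v e.1 ∧ onL u v e.2} ⊆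
      (((G.filter (fun g => g.1 = (u * q + v * q').toNat)).image E : Finset (V3 × V3)) : Set (V3 × V3)) := by
    rintro e ⟨he, h1, h2⟩
    unfold FF at he
    rw [Finset.mem_image] at he
    obtain ⟨⟨g, s⟩, hb, hbe⟩ := he
    rw [Finset.mem_product] at hb
    have hg : g ∈ G := hb.1
    obtain ⟨hp, hp', hpr, u₀, v₀, e1, e2, e3⟩ := hG g hg
    have hx := (hV g.2.1 hp).2.1
    have hx' := (hV g.2.2 hp').2.1
    have hD : x g.2.1 * y g.2.2 - x g.2.2 * y g.2.1 ≠ 0 := by
      intro h
      rw [h, Int.natAbs_zero] at hpr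
      exact Nat.not_prime_zero hpr
    have a1 : y g.2.1 * u - x g.2.1 * v = w g.2.1 + s * g.2.1 := by
      rw [← hbe] at h1
      exact h1
    have a2 : y g.2.2 * u - x g.2.2 * v = w g.2.2 + (s + t g) * g.2.2 := by
      rw [← hbe] at h2
      exact h2
    have b1 : y g.2.1 * (u₀ + s * q') - x g.2.1 * (v₀ - s * q) = w g.2.1 + s * g.2.1 := by
      rw [← hx, ← e2]
      ring
    have b2 : y g.2.2 * (u₀ + s * q') - x g.2.2 * (v₀ - s * q) = w g.2.2 + (s + t g) * g.2.2 := by
      linear_combination e3 + s * hx'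
    obtain ⟨hu, hv⟩ := IF3_cramer83 _ _ _ _ _ _ _ _ _ _ hD a1 a2 b1 b2
    rw [Finset.mem_coe, Finset.mem_image]
    refine ⟨g, Finset.mem_filter.2 ⟨hg, ?_⟩, ?_⟩
    · have h5 : u * q + v * q' = (g.1 : ℤ) := by
        rw [hu, hv, ← e1]
        ring
      rw [h5, Int.toNat_natCast]
    · rw [← hbe]
      refine Prod.ext ?_ ?_
      · funext i
        fin_cases i
        · rfl
        · rfl
        · exact a1
      · funext i
        fin_cases i
        · rfl
        · rfl
        · exact a2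
  refine (Set.ncard_le_ncard hsub (Finset.finite_toSet _)).trans ?_
  rw [Set.ncard_coe_finset]
  exact Finset.card_image_le.trans (hR _)

end Pool.Agent.WB
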