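import Pool.Agent.helper78.WB.SpecIII

/-! # Project wb, Part III, row PB1 -/

set_option autoImplicit false

namespace Pool.Agent.WB

open MvPolynomial

/-- `p = A + w B` -/
theorem PB1_eval (p : MvPolynomial (Fin 3) ℤ) (h : degreeOf 2 p = 1) (ζ : V3) :
    eval ζ p = eval ![ζ 0, ζ 1, 0] p + ζ 2 * eval ![ζ 0, ζ 1, 0] (pderiv 2 p) := by
  have key : ∀ μ ∈ p.support, eval ζ (monomial μ (coeff μ p)) =
      eval ![ζ 0, ζ 1, 0] (monomial μ (coeff μ p)) +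
        ζ 2 * eval ![ζ 0, ζ 1, 0] (pderiv 2 (monomial μ (coeff μ p))) := by
    intro μ hμ
    have hμ2 : μ 2 ≤ 1 := (degreeOf_le_iff.1 h.le) μ hμ
    have hev : ∀ (z : V3) (ν : Fin 3 →₀ ℕ) (a : ℤ), eval z (monomial ν a) =
        a * (z 0 ^ ν 0 * z 1 ^ ν 1 * z 2 ^ ν 2) := by
      intro z ν a
      rw [eval_monomial, Finsupp.prod_fintype _ _ (fun i => pow_zero _), Fin.prod_univ_three]
    rw [pderiv_monomial, hev, hev, hev]
    have e0 : (![ζ 0, ζ 1, 0] : V3) 0 = ζ 0 := rfl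
    have e1 : (![ζ 0, ζ 1, 0] : V3) 1 = ζ 1 := rfl
    have e2 : (![ζ 0, ζ 1, 0] : V3) 2 = 0 := rfl
    rw [e0, e1, e2]
    have f0 : (μ - Finsupp.single (2 : Fin 3) 1 : Fin 3 →₀ ℕ) 0 = μ 0 := by
      rw [Finsupp.tsub_apply, Finsupp.single_apply, if_neg (by decide)]
      rfl
    have f1 : (μ - Finsupp.single (2 : Fin 3) 1 : Fin 3 →₀ ℕ) 1 = μ 1 := by
      rw [Finsupp.tsub_apply, Finsupp.single_apply, if_neg (by decide)]
      rfl
    have f2 : (μ - Finsupp.single (2 : Fin 3) 1 : Fin 3 →₀ ℕ) 2 = μ 2 - 1 := by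
      rw [Finsupp.tsub_apply, Finsupp.single_apply, if_pos rfl]
    rw [f0, f1, f2]
    rcases Nat.le_one_iff_eq_zero_or_eq_one.1 hμ2 with h0 | h0 <;> rw [h0] <;> simp
    ring
  conv_lhs => rw [p.as_sum]
  conv_rhs => rw [p.as_sum]
  rw [map_sum, map_sum, map_sum, map_sum, Finset.mul_sum, ← Finset.sum_add_distrib]
  exact Finset.sum_congr rfl key

/-- the divisors with both signs -/
theorem PB1_div (R : ℤ) (hR : R ≠ 0) : ∃ D : Finset ℤ, D.card ≤ 2 * R.natAbs.divisors.card ∧ ∀ b : ℤ, b ∣ R → b ∈ D := by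
  classical
  refine ⟨R.natAbs.divisors.image (fun n : ℕ => (n : ℤ)) ∪ R.natAbs.divisors.image (fun n : ℕ => -(n : ℤ)), ?_, ?_⟩
  · refine (Finset.card_union_le _ _).trans ?_
    rw [two_mul]
    exact Nat.add_le_add Finset.card_image_le Finset.card_image_le
  · intro b hb
    have h1 : b.natAbs ∈ R.natAbs.divisors :=
      Nat.mem_divisors.2 ⟨Int.natAbs_dvd_natAbs.2 hb, Int.natAbs_ne_zero.2 hR⟩
    rw [Finset.mem_union, Finset.mem_image, Finset.mem_image]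
    rcases Int.natAbs_eq b with h | h
    · exact Or.inl ⟨_, h1, h.symm⟩
    · exact Or.inr ⟨_, h1, h.symm⟩

/-- the counting argument -/
theorem PB1_count (h3 : PDH_stmt) (h4 : LVL_stmt) (d X₀ : ℕ) (p : MvPolynomial (Fin 3) ℤ) (hp : p.IsHomogeneous d)
    (hd : 2 ≤ d) (hw : degreeOf 2 p = 1) (R : ℤ) (hR : R ≠ 0) (S : Finset V3)
    (hS : ∀ ζ ∈ S, eval ζ p = 0 ∧ |ζ 0| ≤ (X₀ : ℤ) ∧ |ζ 1| ≤ (X₀ : ℤ) ∧
      eval ![ζ 0, ζ 1, 0] (pderiv 2 p) ≠ 0 ∧ eval ![ζ 0, ζ 1, 0] (pderiv 2 p) ∣ R) :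
    S.card ≤ (d + 1) * (2 * X₀ + 1) * (2 * R.natAbs.divisors.card) := by
  classical
  obtain ⟨D, hD, hDb⟩ := PB1_div R hR
  obtain ⟨hB0, hBh, hBw⟩ := h3 d p hp (by omega) hw
  refine (Finset.card_le_mul_card_image_of_maps_to (f := fun ζ : V3 => eval ![ζ 0, ζ 1, 0] (pderiv 2 p)) (t := D)
    (fun ζ hζ => hDb _ (hS ζ hζ).2.2.2.2) ((d + 1) * (2 * X₀ + 1)) ?_).trans (Nat.mul_le_mul_left _ hD)
  intro b _
  by_cases hb : b = 0
  · have : (S.filter fun ζ : V3 => eval ![ζ 0, ζ 1, 0] (pderiv 2 p) = b) = ∅ := by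
      rw [Finset.filter_eq_empty_iff]
      intro ζ hζ h
      exact (hS ζ hζ).2.2.2.1 (h.trans hb)
    rw [this, Finset.card_empty]
    exact Nat.zero_le _
  · have hT := h4 (d - 1) X₀ (pderiv 2 p) b hBh (by omega) hBw hB0 hb
    have hd1 : d - 1 + 2 = d + 1 := by omega
    rw [hd1] at hT
    refine le_trans ?_ hT
    have hinj : Set.InjOn (fun ζ : V3 => (ζ 0, ζ 1))
        ((S.filter fun ζ : V3 => eval ![ζ 0, ζ 1, 0] (pderiv 2 p) = b : Finset V3) : Set V3) := by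
      intro ζ hζ η hη he
      rw [Finset.mem_coe, Finset.mem_filter] at hζ hη
      have e0 : ζ 0 = η 0 := congrArg Prod.fst he
      have e1 : ζ 1 = η 1 := congrArg Prod.snd he
      have i1 := PB1_eval p hw ζ
      have i2 := PB1_eval p hw η
      rw [(hS ζ hζ.1).1, hζ.2] at i1
      rw [(hS η hη.1).1, hη.2, ← e0, ← e1] at i2
      have e2 : ζ 2 = η 2 := by
        have : (ζ 2 - η 2) * b = 0 := by linarith
        rcases mul_eq_zero.1 this with h | h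
        · linarith
        · exact absurd h hb
      funext i
      fin_cases i
      · exact e0
      · exact e1
      · exact e2
    rw [← Finset.card_image_of_injOn hinj, ← Set.ncard_coe_finset]
    refine Set.ncard_le_ncard ?_ ?_
    · intro z hz
      rw [Finset.mem_coe, Finset.mem_image] at hz
      obtain ⟨ζ, hζ, rfl⟩ := hz
      rw [Finset.mem_filter] at hζ
      exact ⟨(hS ζ hζ.1).2.1, (hS ζ hζ.1).2.2.1, hζ.2⟩
    · refine Set.Finite.subset ((Set.finite_Icc (-(X₀ : ℤ)) X₀).prod (Set.finite_Icc (-(X₀ : ℤ)) X₀)) ?_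
      intro z hz
      exact ⟨abs_le.1 hz.1, abs_le.1 hz.2.1⟩

theorem PB1_s3 (d C : ℕ) (h : d ≤ C) : s3 d ≤ s3 C := by
  unfold s3
  exact Nat.div_le_div_right (Nat.mul_le_mul (by omega) (by omega))

theorem PB1_s3pos (d : ℕ) : 1 ≤ s3 d := by
  unfold s3
  rw [Nat.le_div_iff_mul_le (by norm_num)]
  nlinarith [Nat.zero_le d]

/-- the size of the resultant -/
theorem PB1_size (N d C₀ : ℕ) (hd : d ≤ C₀) (h1 : s3 C₀ ≤ N) (h2 : 2 * C₀ ≤ N) (hN : 1 ≤ N) :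
    (2 * d * (s3 d * N ^ d) ^ s3 d) ^ (4 * d) ≤ N ^ (((C₀ + 1) * s3 C₀ + 1) * (4 * C₀)) := by
  have hs : s3 d ≤ s3 C₀ := PB1_s3 d C₀ hd
  have hb : 1 ≤ s3 d * N ^ d := Nat.mul_pos (PB1_s3pos d) (Nat.pow_pos hN)
  have a1 : s3 d * N ^ d ≤ N ^ (C₀ + 1) := by
    rw [pow_succ, mul_comm]
    exact Nat.mul_le_mul (Nat.pow_le_pow_right hN hd) (hs.trans h1)
  have a2 : (s3 d * N ^ d) ^ s3 d ≤ N ^ ((C₀ + 1) * s3 C₀) := by
    rw [pow_mul]
    exact (Nat.pow_le_pow_right hb hs).trans (Nat.pow_le_pow_left a1 _)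
  have a3 : 2 * d * (s3 d * N ^ d) ^ s3 d ≤ N ^ ((C₀ + 1) * s3 C₀ + 1) := by
    rw [pow_succ, mul_comm]
    exact Nat.mul_le_mul a2 ((Nat.mul_le_mul_left 2 hd).trans h2)
  rw [pow_mul N]
  refine (Nat.pow_le_pow_left a3 _).trans (Nat.pow_le_pow_right (Nat.pow_pos hN) (Nat.mul_le_mul_left 4 hd))

/-- **PB1**. -/
theorem PB1 (h1 : HGT_stmt) (h2 : RES_stmt) (h3 : PDH_stmt) (h4 : LVL_stmt) (h5 : DVB_stmt) : PB1_stmt := by
  intro ξ hξ hξ1 ε hε C₀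
  have hδ : 0 < min (ε / 4) (1 - ξ) := lt_min (by positivity) (by linarith)
  refine ⟨min (ε / 4) (1 - ξ), hδ, ?_⟩
  obtain ⟨N₁, hN₁⟩ := h5 (ε / 4) (((C₀ + 1) * s3 C₀ + 1) * (4 * C₀)) (by positivity)
  have hlim : ∀ᶠ N : ℕ in Filter.atTop, (6 * ((C₀ : ℝ) + 1) + (C₀ : ℝ) * C₀) ≤ (N : ℝ) ^ (ε / 2) :=
    ((tendsto_rpow_atTop (by positivity : 0 < ε / 2)).comp tendsto_natCast_atTop_atTop).eventually_ge_atTop _
  obtain ⟨N₂, hN₂⟩ := Filter.eventually_atTop.1 hlim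
  refine ⟨max (max N₁ N₂) (max (max (s3 C₀) (2 * C₀)) 1), ?_⟩
  intro N hN d hd hdC p hirr hhom hw S hNP hS
  have hN1 : N₁ ≤ N := (le_max_left _ _).trans ((le_max_left _ _).trans hN)
  have hN2 : N₂ ≤ N := (le_max_right _ _).trans ((le_max_left _ _).trans hN)
  have hNs : s3 C₀ ≤ N := (le_max_left _ _).trans ((le_max_left _ _).trans ((le_max_right _ _).trans hN))
  have hNc : 2 * C₀ ≤ N := (le_max_right _ _).trans ((le_max_left _ _).trans ((le_max_right _ _).trans hN))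
  have hNo : 1 ≤ N := (le_max_right _ _).trans ((le_max_right _ _).trans hN)
  have hNR : (1 : ℝ) ≤ (N : ℝ) := by exact_mod_cast hNo
  have hbig := hN₂ N hN2
  have hNpos : (0 : ℝ) < (N : ℝ) := by linarith
  have hcC : (d : ℝ) ≤ (C₀ : ℝ) := by exact_mod_cast hdC
  have hd0 : (0 : ℝ) ≤ (d : ℝ) := Nat.cast_nonneg d
  have hmono : (N : ℝ) ^ (ε / 2) ≤ (N : ℝ) ^ (ξ + ε) :=
    Real.rpow_le_rpow_of_exponent_le hNR (by linarith)
  by_cases hcard : S.card ≤ d * d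
  · have c1 : (S.card : ℝ) ≤ (d : ℝ) * d := by exact_mod_cast hcard
    have c2 : (d : ℝ) * d ≤ (C₀ : ℝ) * C₀ := mul_le_mul hcC hcC hd0 (hd0.trans hcC)
    have c3 : (0 : ℝ) ≤ 6 * ((C₀ : ℝ) + 1) := by positivity
    linarith
  · push Not at hcard
    have hx1 : ξ + min (ε / 4) (1 - ξ) ≤ 1 := by
      have := min_le_right (ε / 4) (1 - ξ)
      linarith
    have hXN : (N : ℝ) ^ (ξ + min (ε / 4) (1 - ξ)) ≤ N := by
      calc (N : ℝ) ^ (ξ + min (ε / 4) (1 - ξ)) ≤ (N : ℝ) ^ (1 : ℝ) := Real.rpow_le_rpow_of_exponent_le hNR hx1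
        _ = N := Real.rpow_one _
    have hSall : ∀ ζ ∈ S, ζ ≠ 0 ∧ (∀ i, |ζ i| ≤ (N : ℤ)) ∧ eval ζ p = 0 := by
      intro ζ hζ
      obtain ⟨⟨b0, b1, b2, bc⟩, be⟩ := hS ζ hζ
      refine ⟨?_, ?_, be⟩
      · rintro rfl
        exact not_isCoprime_zero_zero bc
      · intro i
        have g0 : |((ζ 0 : ℤ) : ℝ)| ≤ (N : ℝ) := b0.trans hXN
        have g1 : |((ζ 1 : ℤ) : ℝ)| ≤ (N : ℝ) := b1.trans hXN
        fin_cases i
        · exact_mod_cast g0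
        · exact_mod_cast g1
        · exact_mod_cast b2
    have hcoef := h1 N d p hNo hirr hhom (by omega) S hNP hSall hcard
    have hH1 : 1 ≤ (s3 d * N ^ d) ^ s3 d := Nat.pow_pos (Nat.mul_pos (PB1_s3pos d) (Nat.pow_pos hNo))
    obtain ⟨R, hR0, hRb, hRd⟩ := h2 ((s3 d * N ^ d) ^ s3 d) d p hH1 hirr hhom hd hw hcoef
    have hRN : R.natAbs ≤ N ^ (((C₀ + 1) * s3 C₀ + 1) * (4 * C₀)) := by
      have q1 : R.natAbs ≤ (2 * d * (s3 d * N ^ d) ^ s3 d) ^ (4 * d) := by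
        have : ((R.natAbs : ℕ) : ℤ) ≤ (((2 * d * (s3 d * N ^ d) ^ s3 d) ^ (4 * d) : ℕ) : ℤ) := by
          rw [Int.natCast_natAbs]
          exact hRb
        exact_mod_cast this
      exact q1.trans (PB1_size N d C₀ hdC hNs hNc hNo)
    have hdiv := hN₁ N hN1 R.natAbs (Int.natAbs_ne_zero.2 hR0) hRN
    have hX : ∀ z : ℤ, |((z : ℤ) : ℝ)| ≤ (N : ℝ) ^ (ξ + min (ε / 4) (1 - ξ)) →
        |z| ≤ ((⌊(N : ℝ) ^ (ξ + min (ε / 4) (1 - ξ))⌋₊ : ℕ) : ℤ) := by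
      intro z hz
      have h6 : z.natAbs ≤ ⌊(N : ℝ) ^ (ξ + min (ε / 4) (1 - ξ))⌋₊ := by
        refine Nat.le_floor ?_
        rw [Nat.cast_natAbs, Int.cast_abs]
        exact hz
      rw [← Int.natCast_natAbs]
      exact_mod_cast h6
    have hcount := PB1_count h3 h4 d ⌊(N : ℝ) ^ (ξ + min (ε / 4) (1 - ξ))⌋₊ p hhom hd hw R hR0 S (by
      intro ζ hζ
      obtain ⟨⟨b0, b1, b2, bc⟩, be⟩ := hS ζ hζ
      exact ⟨be, hX _ b0, hX _ b1, (hRd ζ bc be).1, (hRd ζ bc be).2⟩)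
    have hfl : (⌊(N : ℝ) ^ (ξ + min (ε / 4) (1 - ξ))⌋₊ : ℝ) ≤ (N : ℝ) ^ (ξ + min (ε / 4) (1 - ξ)) :=
      Nat.floor_le (Real.rpow_nonneg hNpos.le _)
    have hcR : (S.card : ℝ) ≤ ((d : ℝ) + 1) * (2 * (⌊(N : ℝ) ^ (ξ + min (ε / 4) (1 - ξ))⌋₊ : ℝ) + 1) *
        (2 * (R.natAbs.divisors.card : ℝ)) := by exact_mod_cast hcount
    have hX1 : (1 : ℝ) ≤ (N : ℝ) ^ (ξ + min (ε / 4) (1 - ξ)) :=
      Real.one_le_rpow hNR (by linarith)
    have hstep : (S.card : ℝ) ≤ ((C₀ : ℝ) + 1) * (3 * (N : ℝ) ^ (ξ + min (ε / 4) (1 - ξ))) *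
        (2 * (N : ℝ) ^ (ε / 4)) := by
      refine hcR.trans ?_
      refine mul_le_mul (mul_le_mul (by linarith) (by linarith) (by positivity) (by positivity))
        (by linarith) (by positivity) (by positivity)
    have hprod : (N : ℝ) ^ (ξ + min (ε / 4) (1 - ξ)) * (N : ℝ) ^ (ε / 4) ≤ (N : ℝ) ^ (ξ + ε / 2) := by
      rw [← Real.rpow_add hNpos]
      refine Real.rpow_le_rpow_of_exponent_le hNR ?_
      have := min_le_left (ε / 4) (1 - ξ)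
      linarith
    have hfin : 6 * ((C₀ : ℝ) + 1) * (N : ℝ) ^ (ξ + ε / 2) ≤ (N : ℝ) ^ (ξ + ε) := by
      have e1 : (N : ℝ) ^ (ξ + ε) = (N : ℝ) ^ (ε / 2) * (N : ℝ) ^ (ξ + ε / 2) := by
        rw [← Real.rpow_add hNpos]
        congr 1
        ring
      rw [e1]
      refine mul_le_mul_of_nonneg_right ?_ (Real.rpow_nonneg hNpos.le _)
      have : (0 : ℝ) ≤ (C₀ : ℝ) * C₀ := by positivity
      linarith
    have hlast : ((C₀ : ℝ) + 1) * (3 * (N : ℝ) ^ (ξ + min (ε / 4) (1 - ξ))) * (2 * (N : ℝ) ^ (ε / 4)) ≤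
        6 * ((C₀ : ℝ) + 1) * (N : ℝ) ^ (ξ + ε / 2) := by
      have : ((C₀ : ℝ) + 1) * (3 * (N : ℝ) ^ (ξ + min (ε / 4) (1 - ξ))) * (2 * (N : ℝ) ^ (ε / 4)) =
          6 * ((C₀ : ℝ) + 1) * ((N : ℝ) ^ (ξ + min (ε / 4) (1 - ξ)) * (N : ℝ) ^ (ε / 4)) := by ring
      rw [this]
      exact mul_le_mul_of_nonneg_left hprod (by positivity)
    exact hstep.trans (hlast.trans hfin)

end Pool.Agent.WB
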